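import Pool.Agent.Y605.HC.Par
import Pool.Agent.H679R2.Oct.Mem

/-!
# Degrees of the graphs produced by the reduction, and the decision of the maximum degree
-/

namespace Pool.Agent.Y605.HC

open Pool.Agent.H679R2

/-- Every vertex has at most three neighbours. -/
def MaxDegreeLeThree {V : Type*} (G : SimpleGraph V) : Prop :=
  ∀ v, (G.neighborSet v).ncard ≤ 3

theorem ncard_of_cover {V : Type*} (S : Set V) (a b c : V) (h : ∀ w ∈ S, w = a ∨ w = b ∨ w = c) :
    S.ncard ≤ 3 := by
  have hsub : S ⊆ {a, b, c} := fun w hw => by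
    simpa [Set.mem_insert_iff] using h w hw
  refine (Set.ncard_le_ncard hsub (Set.toFinite _)).trans ?_
  refine (Set.ncard_insert_le _ _).trans ?_
  have := Set.ncard_insert_le b ({c} : Set V)
  rw [Set.ncard_singleton] at this
  omega

theorem sys_deg {ι : Type*} (s : Sys ι) (h : ℕ) (hh : 1 ≤ h) : MaxDegreeLeThree (s.G h) := by
  intro p
  by_cases hp : p.2.val = 0
  · refine ncard_of_cover _ (p.1, ⟨1, by omega⟩) ((p.1.1, nb1 p.1.2), ⟨0, by omega⟩)
      ((p.1.1, nb2 p.1.2), ⟨0, by omega⟩) ?_
    rintro ⟨⟨k, t⟩, i, hi⟩ hw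
    rcases hw with ⟨h1, h2⟩ | ⟨h1, h2, h3⟩ | ⟨h1, h2, h3, h4⟩
    · simp only at h1 h2
      refine Or.inl (Prod.ext h1.symm (Fin.ext ?_))
      change i = 1
      omega
    · omega
    · simp only at h2 h3 h4
      rcases h4 with h4 | h4
      · exact Or.inr (Or.inl (Prod.ext (Prod.ext h3.symm h4) (Fin.ext h2)))
      · exact Or.inr (Or.inr (Prod.ext (Prod.ext h3.symm h4) (Fin.ext h2)))
  · obtain ⟨a, b, hab⟩ := s.adj_inner h p hp
    refine ncard_of_cover _ a b b fun w hw => ?_
    rcases hab w hw with h1 | h1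
    · exact Or.inl h1
    · exact Or.inr (Or.inl h1)

theorem deg_iso {V W : Type*} {G : SimpleGraph V} {H : SimpleGraph W} (e : G ≃g H)
    (hG : MaxDegreeLeThree G) : MaxDegreeLeThree H := by
  intro w
  have h1 := hG (e.symm w)
  have h2 : H.neighborSet w ⊆ e '' (G.neighborSet (e.symm w)) := by
    intro u hu
    refine ⟨e.symm u, ?_, e.apply_symm_apply u⟩
    exact e.symm.map_adj_iff.2 hu
  by_cases hf : (G.neighborSet (e.symm w)).Finite
  · exact (Set.ncard_le_ncard h2 (hf.image _)).trans ((Set.ncard_image_le hf).trans h1)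
  · have h3 : ¬ (H.neighborSet w).Finite := by
      intro h4
      apply hf
      have h5 : G.neighborSet (e.symm w) ⊆ e.symm '' (H.neighborSet w) := by
        intro u hu
        refine ⟨e u, ?_, e.symm_apply_apply u⟩
        have := e.map_adj_iff.2 hu
        rwa [e.apply_symm_apply] at this
      exact (h4.image _).subset h5
    rw [Set.Infinite.ncard h3]
    omega

theorem triangle_deg : MaxDegreeLeThree (toGraph ([0, 1, 2], [(0, 1), (1, 2), (2, 0)])) := by
  intro v
  refine ncard_of_cover _ ⟨0, by simp⟩ ⟨1, by simp⟩ ⟨2, by simp⟩ ?_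
  rintro ⟨w, hw⟩ -
  simp only [List.mem_cons, List.not_mem_nil, or_false] at hw
  rcases hw with rfl | rfl | rfl
  · exact Or.inl rfl
  · exact Or.inr (Or.inl rfl)
  · exact Or.inr (Or.inr rfl)

theorem red_deg (h : ℕ) (hh : 1 ≤ h) (φ) : MaxDegreeLeThree (toGraph (red h φ)) := by
  unfold red
  by_cases hφ : φ = []
  · subst hφ
    simp only [List.isEmpty_nil]
    exact triangle_deg
  · rw [if_neg (by simpa using hφ)]
    exact deg_iso (instIso (occ φ) h) (sys_deg _ h hh)

theorem red_card (h : ℕ) (φ) :
    Nat.card {v : ℕ // v ∈ (red h φ).1} ≤ 36 * φ.length * (h + 1) + 3 := by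
  unfold red
  by_cases hφ : φ = []
  · subst hφ
    simp only [List.isEmpty_nil, if_true]
    have h1 : Nat.card {v : ℕ // v ∈ ([0, 1, 2] : List ℕ)} = 3 := by
      rw [Nat.subtype_card (({0, 1, 2} : Finset ℕ))]
      · rfl
      · intro x
        simp
    rw [h1]
    omega
  · rw [if_neg (by simpa using hφ)]
    have h1 : Nat.card {v : ℕ // v ∈ (instOf (occ φ) h).1} = (occ φ).length * 12 * (h + 1) := by
      rw [Nat.subtype_card (Finset.range ((occ φ).length * 12 * (h + 1)))]
      · simp
      · intro x
        simp [instOf]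
    rw [h1, Pool.Agent.NPC.Y605HC.occ_length]
    have : 3 * φ.length * 12 * (h + 1) = 36 * φ.length * (h + 1) := by ring
    omega

/-- A graph with an `H_j` has at least `j + 5` vertices. -/
theorem Hj_free_of_card {V : Type} [Finite V] (G : SimpleGraph V) (j : ℕ)
    (h : Nat.card V < j + 5) : (Hj j).Free G := by
  rintro ⟨φ⟩
  have h1 := Nat.card_le_card_of_injective φ φ.injective
  rw [Nat.card_eq_fintype_card] at h1
  simp only [Fintype.card_sum, Fintype.card_fin, Fintype.card_prod, Fintype.card_bool] at h1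
  omega

/-! ### the star with four leaves -/

/-- The star with four leaves. -/
def star4 : SimpleGraph (Option (Fin 4)) where
  Adj
    | none, some _ => True
    | some _, none => True
    | _, _ => False
  symm := ⟨by
    rintro (_ | a) (_ | b) h
    · exact h
    · trivial
    · trivial
    · exact h⟩
  loopless := ⟨by
    rintro (_ | a) h
    · exact h
    · exact h⟩

theorem star4_free {V : Type*} [Finite V] (G : SimpleGraph V) :
    star4.Free G ↔ MaxDegreeLeThree G := by
  constructor
  · intro hf v
    by_contra hv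
    push Not at hv
    obtain ⟨f, hf'⟩ : ∃ f : Fin 4 ↪ V, ∀ i, f i ∈ G.neighborSet v := by
      have h1 : (Finset.univ : Finset (Fin 4)).card ≤ (Set.toFinite (G.neighborSet v)).toFinset.card := by
        rw [← Set.ncard_eq_toFinset_card]
        simp
        omega
      obtain ⟨T, hT, hc⟩ := Finset.exists_subset_card_eq h1
      have e : Fin 4 ≃ T := (Fintype.equivFinOfCardEq (by simpa using hc)).symm
      refine ⟨⟨fun i => (e i).1, fun i j hij => e.injective (Subtype.ext hij)⟩, fun i => ?_⟩
      have h2 : (e i).1 ∈ G.neighborSet v := by simpa using hT (e i).2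
      exact h2
    refine hf ⟨⟨⟨fun x => x.elim v f, ?_⟩, ?_⟩⟩
    · rintro (_ | a) (_ | b) h
      · exact h.elim
      · exact hf' b
      · exact (hf' a).symm
      · exact h.elim
    · rintro (_ | a) (_ | b) h
      · rfl
      · exact absurd h (hf' b).ne
      · exact absurd h.symm (hf' a).ne
      · exact congrArg some (f.injective h)
  · rintro hd ⟨φ⟩
    have h1 := hd (φ none)
    have h2 : Function.Injective (fun i : Fin 4 => φ (some i)) := fun i j hij => by
      simpa using φ.injective hij
    have h3 : Set.range (fun i : Fin 4 => φ (some i)) ⊆ G.neighborSet (φ none) := by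
      rintro _ ⟨i, rfl⟩
      exact φ.toHom.map_adj (show star4.Adj none (some i) from trivial)
    have h4 := Set.ncard_le_ncard h3 (Set.toFinite _)
    rw [← Set.image_univ, Set.ncard_image_of_injective _ h2, Set.ncard_univ] at h4
    simp at h4
    omega

end Pool.Agent.Y605.HC

namespace Pool.Agent.NPC.Y605HC

open Pool.Agent.H679R2 Pool.Agent.NPC.H679 Pool.Agent.Y605.HC

/-- For a finite set of graphs `H_j` freeness and maximum degree are decidable in polynomial
time. -/
theorem class_decidable (J : Finset ℕ) :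
    ∃ d : (List ℕ × List (ℕ × ℕ)) → Bool, Poly d ∧ ∀ I,
      (MaxDegreeLeThree (toGraph I) ∧ ∀ j ∈ J, (Hj j).Free (toGraph I)) ↔ d I = true := by
  classical
  induction J using Finset.induction_on with
  | empty =>
    obtain ⟨d, hd, hP⟩ := free_decidable star4
    refine ⟨d, hd, fun I => ?_⟩
    have : Finite {v : ℕ // v ∈ I.1} := List.finite_toSet I.1
    rw [← hP, star4_free]
    simp
  | insert a J ha ih =>
    obtain ⟨d, hd, hP⟩ := ih
    obtain ⟨d', hd', hP'⟩ := free_decidable (Hj a)
    refine ⟨fun I => d I && d' I, Poly.and hd hd', fun I => ?_⟩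
    rw [Bool.and_eq_true, ← hP, ← hP']
    simp only [Finset.mem_insert, forall_eq_or_imp]
    tauto

end Pool.Agent.NPC.Y605HC
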