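import Pool.Agent.Y605.HC.Deg

/-!
# Long path lengths in a lacunary set, and the hardness theorem
-/

namespace Pool.Agent.Y605.HC

open Pool.Agent.H679R2

/-- One step: raise to the power `r` while the number is smaller than `M`. -/
def stp (r M x : ℕ) : ℕ := if x < M then x ^ r else x

/-- The least number of the form `c ^ (r ^ i)` which is at least `M`. -/
def lac (c r M : ℕ) : ℕ := (stp r M)^[M] c

theorem stp_form (c r M : ℕ) (t : ℕ) : ∃ i, (stp r M)^[t] c = c ^ (r ^ i) := by
  induction t with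
  | zero => exact ⟨0, by simp⟩
  | succ t ih =>
    obtain ⟨i, hi⟩ := ih
    rw [Function.iterate_succ_apply', hi]
    unfold stp
    split_ifs
    · exact ⟨i + 1, by rw [← pow_mul, ← pow_succ]⟩
    · exact ⟨i, rfl⟩

theorem stp_ge (c r M : ℕ) (hc : 2 ≤ c) (hr : 2 ≤ r) (t : ℕ) :
    2 ≤ (stp r M)^[t] c ∧ (M ≤ (stp r M)^[t] c ∨ t ≤ (stp r M)^[t] c) := by
  induction t with
  | zero => exact ⟨by simpa using hc, Or.inr (Nat.zero_le _)⟩
  | succ t ih =>
    obtain ⟨h1, h2⟩ := ih
    rw [Function.iterate_succ_apply']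
    generalize (stp r M)^[t] c = x at h1 h2
    unfold stp
    split_ifs with h3
    · have h4 : x ^ 2 ≤ x ^ r := Nat.pow_le_pow_right (by omega) hr
      have h5 : x + 1 ≤ x ^ 2 := by nlinarith
      exact ⟨by omega, Or.inr (by omega)⟩
    · exact ⟨h1, Or.inl (by omega)⟩

theorem stp_le (c r M : ℕ) (t : ℕ) : (stp r M)^[t] c ≤ c + M ^ r := by
  induction t with
  | zero => simp
  | succ t ih =>
    rw [Function.iterate_succ_apply']
    generalize (stp r M)^[t] c = x at ih
    unfold stp
    split_ifs with h3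
    · exact (Nat.pow_le_pow_left h3.le r).trans (Nat.le_add_left _ _)
    · exact ih

theorem lac_form (c r M : ℕ) : ∃ i, lac c r M = c ^ (r ^ i) := stp_form c r M M

theorem lac_ge (c r M : ℕ) (hc : 2 ≤ c) (hr : 2 ≤ r) : M ≤ lac c r M := by
  rcases (stp_ge c r M hc hr M).2 with h | h <;> exact h

/-- The length of the paths. -/
def len (b k c r m : ℕ) : ℕ := lac c r ((36 * m + 9 + b) ^ (k + 1))

theorem len_base (b k c r m : ℕ) (hc : 2 ≤ c) (hr : 2 ≤ r) :
    36 * m + 9 + b ≤ len b k c r m ∧ (36 * m + 9 + b) ^ k ≤ len b k c r m := by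
  have h1 := lac_ge c r ((36 * m + 9 + b) ^ (k + 1)) hc hr
  constructor
  · exact (Nat.le_self_pow (by omega) _).trans h1
  · exact (Nat.pow_le_pow_right (by omega) (Nat.le_succ k)).trans h1

/-- All the forbidden subgraphs are absent. -/
theorem red_free_all (b k c r : ℕ) (hc : 2 ≤ c) (hr : 2 ≤ r) (φ) (j : ℕ) (hj : 6 ≤ j)
    (h : j ≤ b ∨ j ^ (k + 1) ≤
      Nat.card {v : ℕ // v ∈ (red (len b k c r φ.length) φ).1} ^ k ∨ ∃ i, j = c ^ (r ^ i)) :
    (Hj j).Free (toGraph (red (len b k c r φ.length) φ)) := by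
  set H := len b k c r φ.length with hH
  obtain ⟨h1, h2⟩ := len_base b k c r φ.length hc hr
  rw [← hH] at h1 h2
  have hcard := red_card H φ
  set N := Nat.card {v : ℕ // v ∈ (red H φ).1} with hN
  have hN1 : N ≤ (36 * φ.length + 3) * (H + 1) := by
    refine hcard.trans ?_
    nlinarith
  by_cases hjH : j ≤ H
  · exact red_free H j hj hjH φ
  · rcases h with h | h | ⟨i, rfl⟩
    · omega
    · exfalso
      have h3 : N ^ k ≤ (36 * φ.length + 3) ^ k * (H + 1) ^ k := by
        rw [← mul_pow]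
        exact Nat.pow_le_pow_left hN1 k
      have h4 : (36 * φ.length + 3) ^ k ≤ H := (Nat.pow_le_pow_left (by omega) k).trans h2
      have h5 : (H + 1) ^ (k + 1) ≤ j ^ (k + 1) := Nat.pow_le_pow_left (by omega) _
      have h6 : (36 * φ.length + 3) ^ k * (H + 1) ^ k < (H + 1) * (H + 1) ^ k :=
        Nat.mul_lt_mul_of_pos_right (by omega) (by positivity)
      rw [pow_succ] at h5
      have h7 : (H + 1) ^ k * (H + 1) = (H + 1) * (H + 1) ^ k := mul_comm _ _
      omega
    · have : Finite {v : ℕ // v ∈ (red H φ).1} := List.finite_toSet _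
      refine Hj_free_of_card _ _ ?_
      rw [← hN]
      obtain ⟨i0, hi0⟩ := lac_form c r ((36 * φ.length + 9 + b) ^ (k + 1))
      have hHi : H = c ^ (r ^ i0) := hi0
      have hlt : r ^ i0 < r ^ i := by
        by_contra hcon
        exact hjH (by rw [hHi]; exact Nat.pow_le_pow_right (by omega) (by omega))
      have hii : i0 < i := (Nat.pow_lt_pow_iff_right (by omega)).1 hlt
      have h8 : r ^ (i0 + 1) ≤ r ^ i := Nat.pow_le_pow_right (by omega) hii
      have h9 : H ^ 2 ≤ c ^ (r ^ i) := by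
        calc H ^ 2 ≤ H ^ r := Nat.pow_le_pow_right (by omega) hr
          _ = c ^ (r ^ (i0 + 1)) := by rw [hHi, ← pow_mul, ← pow_succ]
          _ ≤ c ^ (r ^ i) := Nat.pow_le_pow_right (by omega) h8
      have h10 : (36 * φ.length + 3) * (H + 1) ≤ H ^ 2 := by nlinarith
      omega

end Pool.Agent.Y605.HC

namespace Pool.Agent.NPC.Y605HC

open Pool.Agent.H679R2 Pool.Agent.NPC.H679 Pool.Agent.Y605.HC

theorem pow_polyc {α : Type} [TEnc α] {x : α → ℕ} (hx : Poly x) (r : ℕ) :
    Poly (fun a => x a ^ r) := by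
  induction r with
  | zero => exact (Poly.const 1).congr fun a => by simp
  | succ r ih => exact (Poly.mul ih hx).congr fun a => by rw [pow_succ]

theorem lac_upoly {α : Type} [TEnc α] {M : α → ℕ} (hM : UPoly M) (c r : ℕ)
    (q : Polynomial ℕ) (hq : ∀ a, M a ≤ q.eval (sz a)) : UPoly (fun a => lac c r (M a)) := by
  have h1 : Poly (fun a => (stp r (M a))^[(List.replicate (M a) ()).length] c) := by
    refine Poly.iterLen (F := fun a x => stp r (M a) x) hM (Poly.const c) ?_
      (Polynomial.C 4 * (Polynomial.C c + q ^ r) + Polynomial.C 1) ?_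
    · have h2 : Poly (fun p : α × ℕ => decide (p.2 < M p.1)) :=
        Poly.decide_lt (Poly.snd Poly.id) (hM.toPoly.comp (Poly.fst Poly.id))
      exact Poly.ite (p := fun p : α × ℕ => p.2 < M p.1) h2
        (pow_polyc (Poly.snd Poly.id) r) (Poly.snd Poly.id)
    · intro a t _
      have h3 := sz_nat_le ((stp r (M a))^[t] c)
      have h4 := Poly.size_le_self ((stp r (M a))^[t] c)
      have h5 := stp_le c r (M a) t
      have h6 : M a ^ r ≤ (q.eval (sz a)) ^ r := Nat.pow_le_pow_left (hq a) r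
      simp only [Polynomial.eval_add, Polynomial.eval_mul, Polynomial.eval_C, Polynomial.eval_pow]
      have h7 : sz ((stp r (M a))^[t] c) ≤ 4 * (c + M a ^ r) + 1 := by omega
      refine h7.trans ?_
      omega
  have h2 : Poly (fun a => lac c r (M a)) := h1.congr fun a => by
    rw [List.length_replicate]
    rfl
  have hb : UPoly (fun a => c + M a ^ r) := by
    have := UPoly.eval hM (Polynomial.C c + Polynomial.X ^ r)
    simpa using this
  exact UPoly.of_le h2 hb fun a => stp_le c r (M a) (M a)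

theorem len_upoly (b k c r : ℕ) :
    UPoly (fun φ : List (Lit ℕ × Lit ℕ × Lit ℕ) => len b k c r φ.length) := by
  have h1 : UPoly (fun φ : List (Lit ℕ × Lit ℕ × Lit ℕ) => (36 * φ.length + 9 + b) ^ (k + 1)) := by
    have := UPoly.eval (UPoly.length (Poly.id (α := List (Lit ℕ × Lit ℕ × Lit ℕ))))
      ((Polynomial.C 36 * Polynomial.X + Polynomial.C 9 + Polynomial.C b) ^ (k + 1))
    simpa using this
  refine lac_upoly h1 c r
    ((Polynomial.C 36 * Polynomial.X + Polynomial.C 9 + Polynomial.C b) ^ (k + 1)) fun φ => ?_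
  simp only [Polynomial.eval_add, Polynomial.eval_mul, Polynomial.eval_C, Polynomial.eval_pow,
    Polynomial.eval_X]
  have := length_lt_sz φ
  exact Nat.pow_le_pow_left (by omega) _

/-- The hardness theorem. -/
theorem hardPr_all (b k c r : ℕ) (hc : 2 ≤ c) (hr : 2 ≤ r) :
    HardPr (fun I => MaxDegreeLeThree (toGraph I) ∧ ∀ j, 6 ≤ j →
      (j ≤ b ∨ j ^ (k + 1) ≤ Nat.card {v : ℕ // v ∈ I.1} ^ k ∨ ∃ i, j = c ^ (r ^ i)) →
      (Hj j).Free (toGraph I)) HasHamCycle := by
  have h1 : ∀ φ : List (Lit ℕ × Lit ℕ × Lit ℕ), 1 ≤ len b k c r φ.length := fun φ => by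
    have := (len_base b k c r φ.length hc hr).1
    omega
  exact hardI_SAT3.toHardPr.trans (redg_poly (len_upoly b k c r))
    (fun φ _ => ⟨red_deg _ (h1 φ) φ, fun j hj h => red_free_all b k c r hc hr φ j hj h⟩)
    (fun φ _ => red_ham _ (h1 φ) φ)

/-- Membership in `NP` without a bound on the degrees. -/
theorem free_decidable_all (J : Finset ℕ) :
    ∃ d : (List ℕ × List (ℕ × ℕ)) → Bool, Poly d ∧ ∀ I,
      (∀ j ∈ J, (Hj j).Free (toGraph I)) ↔ d I = true := by
  classical
  induction J using Finset.induction_on with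
  | empty => exact ⟨fun _ => true, Poly.const true, fun I => by simp⟩
  | insert a J ha ih =>
    obtain ⟨d, hd, hP⟩ := ih
    obtain ⟨d', hd', hP'⟩ := free_decidable (Hj a)
    refine ⟨fun I => d I && d' I, Poly.and hd hd', fun I => ?_⟩
    rw [Bool.and_eq_true, ← hP, ← hP']
    simp only [Finset.mem_insert, forall_eq_or_imp]
    tauto

end Pool.Agent.NPC.Y605HC
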