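import Pool.Agent.H679R2.Oct.Pol

/-!
# The reduction to the Hamiltonian cycle problem with a variable length of the paths
-/

namespace Pool.Agent.NPC.Y605HC

open Pool.Agent.NPC Pool.Agent.H679R2 Pool.Agent.NPC.H679

section Para

variable {α : Type} [TEnc α] {l : α → List (ℕ × Bool × ℕ)} {g : α → ℕ}

theorem E3_polyg (hl : Poly l) (hg : UPoly g) : Poly (fun a => E3 (l a) (g a)) := by
  refine Poly.flatMap (F := fun (a : α) (k : ℕ) =>
    (List.range 12).flatMap (fun t => (List.range (g a)).map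
      (fun i => ((k, t, i), (k, t, i + 1)))) ++
    clE.map (fun q => ((k, q.1, 0), (k, q.2, 0))) ++
    (lnE (l a) k).map (fun q => ((q.1.1, q.1.2, g a), (q.2.1, q.2.2, g a))))
      (Poly.range_length hl) ?_
  refine Poly.append (Poly.append ?_ ?_) ?_
  · refine Poly.flatMap (F := fun (p : α × ℕ) (t : ℕ) =>
      (List.range (g p.1)).map (fun i => ((p.2, t, i), (p.2, t, i + 1)))) (Poly.const _) ?_
    refine Poly.map (F := fun (p : (α × ℕ) × ℕ) (i : ℕ) =>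
      ((p.1.2, p.2, i), (p.1.2, p.2, i + 1)))
      (UPoly.range (UPoly.comp hg (Poly.fst (Poly.fst Poly.id)))) ?_
    have h1 : Poly (fun p : ((α × ℕ) × ℕ) × ℕ => p.1.1.2) :=
      Poly.snd (Poly.fst (Poly.fst Poly.id))
    have h2 : Poly (fun p : ((α × ℕ) × ℕ) × ℕ => p.1.2) :=
      Poly.snd (Poly.fst Poly.id)
    have h3 : Poly (fun p : ((α × ℕ) × ℕ) × ℕ => p.2) := Poly.snd Poly.id
    exact Poly.pair (Poly.pair h1 (Poly.pair h2 h3)) (Poly.pair h1 (Poly.pair h2 (Poly.succ h3)))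
  · refine Poly.map (F := fun (p : α × ℕ) (q : ℕ × ℕ) =>
      ((p.2, q.1, 0), (p.2, q.2, 0))) (Poly.const _) ?_
    have h1 : Poly (fun p : (α × ℕ) × ℕ × ℕ => p.1.2) :=
      Poly.snd (Poly.fst Poly.id)
    exact Poly.pair (Poly.pair h1 (Poly.pair (Poly.fst (Poly.snd Poly.id)) (Poly.const 0)))
      (Poly.pair h1 (Poly.pair (Poly.snd (Poly.snd Poly.id)) (Poly.const 0)))
  · have hpr : Poly (fun p : α × ℕ => ((l p.1, p.2) : List (ℕ × Bool × ℕ) × ℕ)) :=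
      Poly.pair (hl.comp (Poly.fst Poly.id)) (Poly.snd Poly.id)
    have hln := Poly.comp (g := fun p : List (ℕ × Bool × ℕ) × ℕ => lnE p.1 p.2) lnE_poly hpr
    refine Poly.map (F := fun (p : α × ℕ) (q : (ℕ × ℕ) × (ℕ × ℕ)) =>
      ((q.1.1, q.1.2, g p.1), (q.2.1, q.2.2, g p.1))) hln ?_
    have h1 : Poly (fun p : (α × ℕ) × ((ℕ × ℕ) × (ℕ × ℕ)) => p.2) :=
      Poly.snd Poly.id
    have h2 : Poly (fun p : (α × ℕ) × ((ℕ × ℕ) × (ℕ × ℕ)) => g p.1.1) :=
      hg.toPoly.comp (Poly.fst (Poly.fst Poly.id))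
    exact Poly.pair (Poly.pair (Poly.fst (Poly.fst h1)) (Poly.pair (Poly.snd (Poly.fst h1))
      h2)) (Poly.pair (Poly.fst (Poly.snd h1)) (Poly.pair (Poly.snd (Poly.snd h1)) h2))

theorem cd_polyg {x : α → ℕ × ℕ × ℕ} (hx : Poly x) (hg : Poly g) :
    Poly (fun a => cd (g a) (x a)) :=
  Poly.add (Poly.snd (Poly.snd hx)) (Poly.mul (Poly.succ hg)
    (Poly.add (Poly.fst (Poly.snd hx)) (Poly.mul (Poly.const 12) (Poly.fst hx))))

theorem instOf_polyg (hl : Poly l) (hg : UPoly g) : Poly (fun a => instOf (l a) (g a)) := by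
  refine Poly.pair ?_ ?_
  · exact ((UPoly.mul (UPoly.mul (UPoly.length hl) (UPoly.const 12))
      (UPoly.add hg (UPoly.const 1))).range).congr fun o => rfl
  · have h1 : Poly (fun p : α × ((ℕ × ℕ × ℕ) × (ℕ × ℕ × ℕ)) => g p.1) :=
      hg.toPoly.comp (Poly.fst Poly.id)
    exact Poly.map (F := fun (a : α) (q : (ℕ × ℕ × ℕ) × (ℕ × ℕ × ℕ)) =>
      (cd (g a) q.1, cd (g a) q.2)) (E3_polyg hl hg)
      (Poly.pair (cd_polyg (g := fun p : α × ((ℕ × ℕ × ℕ) × (ℕ × ℕ × ℕ)) => g p.1)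
        (Poly.fst (Poly.snd Poly.id)) h1)
      (cd_polyg (g := fun p : α × ((ℕ × ℕ × ℕ) × (ℕ × ℕ × ℕ)) => g p.1)
        (Poly.snd (Poly.snd Poly.id)) h1))

end Para

theorem redg_poly {g : List (Lit ℕ × Lit ℕ × Lit ℕ) → ℕ} (hg : UPoly g) :
    Poly (fun φ => red (g φ) φ) := by
  refine (Poly.cond (Poly.isEmpty Poly.id) (Poly.const ([0, 1, 2], [(0, 1), (1, 2), (2, 0)]))
    (instOf_polyg occ_poly hg)).congr fun φ => ?_
  unfold red
  cases φ.isEmpty <;> rfl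

theorem occ_length (φ : List (Lit ℕ × Lit ℕ × Lit ℕ)) : (occ φ).length = 3 * φ.length := by
  unfold occ
  rw [List.length_flatMap]
  simp [mul_comm]

end Pool.Agent.NPC.Y605HC
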